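import Pool.Agent.Q54.EM.StmD

/-!
# Project EM (helper54): job FF
-/

set_option autoImplicit false

namespace Pool.Agent.Q153.EM

open Pool.Agent.Q54.EM

/-- job FF -/
theorem ff_job : S_FF := by
  intro q hq0 hq1
  have hq : q ≠ 0 := hq0.ne'
  have hu : 0 < 1 - q := by linarith
  refine ⟨?_, ?_, ?_⟩
  · have h1 : HasDerivAt (fun x : ℝ => 1 - x) (-1) q := by
      simpa using (hasDerivAt_id q).const_sub 1
    have h2 : HasDerivAt (fun x : ℝ => - Real.log (1 - x)) (-(-1 / (1 - q))) q :=
      (h1.log hu.ne').neg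
    have h3 := h2.div (hasDerivAt_id q) hq
    have h4 : HasDerivAt ff ((-(-1 / (1 - q)) * id q - -Real.log (1 - q) * 1) / id q ^ 2) q := h3
    convert h4 using 1
    unfold ff
    simp only [id]
    field_simp
  · unfold ff
    rw [le_div_iff₀ hq0, one_mul]
    have := Real.log_le_sub_one_of_pos hu
    linarith
  · have hlog : 0 ≤ -Real.log (1 - q) := by
      have := Real.log_le_sub_one_of_pos hu
      linarith
    have h1 := Real.self_le_sinh_iff.2 hlog
    rw [Real.sinh_eq, neg_neg, Real.exp_neg, Real.exp_log hu] at h1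
    unfold ff
    have h2 : (1 - q) * (-Real.log (1 - q) / q) = (1 - q) * -Real.log (1 - q) / q := by ring
    rw [h2, div_le_iff₀ hq0]
    have h3 : (1 - q) * -Real.log (1 - q) ≤ (1 - q) * (((1 - q)⁻¹ - (1 - q)) / 2) :=
      mul_le_mul_of_nonneg_left h1 hu.le
    have h4 : (1 - q) * (((1 - q)⁻¹ - (1 - q)) / 2) = (1 - q / 2) * q := by
      field_simp
      ring
    linarith

end Pool.Agent.Q153.EM
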