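import Pool.Agent.Q86.EM.Stm

/-!
# Project EM of helper86, job EM-GR2: the gradient of `Q u` by Bessel's inequality
-/

set_option autoImplicit false

namespace Pool.Agent.Q153.EM

open MeasureTheory Set Filter Topology
open scoped ENNReal InnerProductSpace ContDiff
open Pool.Agent.H888R2.KT
open Pool.Agent.Q86.EM

theorem fd_inner {κ : Type} [Fintype κ] (w x : Eu κ) :
    ‖fderiv ℝ (fun x : Eu κ => ⟪x, w⟫_ℝ) x‖ = ‖w‖ := by
  have e : (fun x : Eu κ => ⟪x, w⟫_ℝ) = fun x => innerSL ℝ w x := by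
    funext x
    rw [innerSL_apply_apply, real_inner_comm]
  rw [e, ContinuousLinearMap.fderiv, innerSL_apply_norm]

theorem gr2 : S_GR2 := by
  intro κ _ ρ hρ h hh u hu y
  set V : ℝ := pst h ρ (fun x => u x ^ 2) y - (pst h ρ u y) ^ 2 with hV
  have hV0 : 0 ≤ V := by
    have := N5x.var_nonneg hρ h hh y u hu
    rw [hV]
    linarith
  obtain ⟨-, hd⟩ := pst_deriv hρ h hh u hu y
  have key : ∀ w : Eu κ, (fderiv ℝ (pst h ρ u) y w) ^ 2 ≤ h⁻¹ * V * ‖w‖ ^ 2 := by
    intro w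
    set g : Eu κ → ℝ := fun x => ⟪x, w⟫_ℝ with hg
    have hgc : Continuous g := by rw [hg]; fun_prop
    have hgd : ContDiff ℝ 1 g := contDiff_id.inner ℝ contDiff_const
    set cv : ℝ := pst h ρ (fun x => u x * g x) y - pst h ρ u y * pst h ρ g y with hcv
    set W : ℝ := pst h ρ (fun x => g x ^ 2) y - (pst h ρ g y) ^ 2 with hW
    have h1 : ∀ t : ℝ, 0 ≤ W * (t * t) + 2 * cv * t + V := by
      intro t
      have h2 := N5x.var_nonneg hρ h hh y (fun x => u x + t * g x) (by fun_prop)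
      have e1 : pst h ρ (fun x => u x + t * g x) y = pst h ρ u y + t * pst h ρ g y := by
        rw [N5x.pst_add hρ h hh y u (fun x => t * g x) hu (by fun_prop), N5x.pst_smul]
      have e2 : pst h ρ (fun x => (u x + t * g x) ^ 2) y =
          pst h ρ (fun x => u x ^ 2) y + 2 * t * pst h ρ (fun x => u x * g x) y +
            t ^ 2 * pst h ρ (fun x => g x ^ 2) y := by
        have e3 : (fun x => (u x + t * g x) ^ 2) =
            fun x => (u x ^ 2 + 2 * t * (u x * g x)) + t ^ 2 * g x ^ 2 := by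
          funext x
          ring
        rw [e3, N5x.pst_add hρ h hh y (fun x => u x ^ 2 + 2 * t * (u x * g x))
          (fun x => t ^ 2 * g x ^ 2) (by fun_prop) (by fun_prop),
          N5x.pst_add hρ h hh y (fun x => u x ^ 2) (fun x => 2 * t * (u x * g x)) (by fun_prop)
          (by fun_prop), N5x.pst_smul, N5x.pst_smul]
      rw [e1, e2] at h2
      rw [hW, hcv, hV]
      nlinarith [h2]
    have h3 := discrim_le_zero h1
    unfold discrim at h3
    have h4 : W ≤ h * ‖w‖ ^ 2 := by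
      have h5 := var_contr hρ h hh g hgd y
      have e1 : (fun x => ‖fderiv ℝ g x‖ ^ 2) = fun _ => ‖w‖ ^ 2 := by
        funext x
        rw [hg, fd_inner]
      rw [e1, N5x.pst_const hρ h hh y] at h5
      exact h5
    have h5 : cv ^ 2 ≤ W * V := by nlinarith [h3]
    have h6 : W * V ≤ h * ‖w‖ ^ 2 * V := mul_le_mul_of_nonneg_right h4 hV0
    rw [hd w, mul_pow]
    have h7 : h⁻¹ ^ 2 * cv ^ 2 ≤ h⁻¹ ^ 2 * (h * ‖w‖ ^ 2 * V) :=
      mul_le_mul_of_nonneg_left (h5.trans h6) (by positivity)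
    refine h7.trans (le_of_eq ?_)
    field_simp
  have h1 : ‖fderiv ℝ (pst h ρ u) y‖ ≤ Real.sqrt (h⁻¹ * V) := by
    refine ContinuousLinearMap.opNorm_le_bound _ (Real.sqrt_nonneg _) fun w => ?_
    rw [Real.norm_eq_abs, ← Real.sqrt_sq (norm_nonneg w), ← Real.sqrt_mul (by positivity),
      ← Real.sqrt_sq_eq_abs]
    exact Real.sqrt_le_sqrt (key w)
  have h2 : ‖fderiv ℝ (pst h ρ u) y‖ ^ 2 ≤ h⁻¹ * V := by
    have h3 := pow_le_pow_left₀ (norm_nonneg _) h1 2
    rwa [Real.sq_sqrt (by positivity)] at h3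
  calc h * ‖fderiv ℝ (pst h ρ u) y‖ ^ 2 ≤ h * (h⁻¹ * V) := mul_le_mul_of_nonneg_left h2 hh.le
    _ = V := by field_simp

end Pool.Agent.Q153.EM
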