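import Pool.Agent.Q86.EM.Stm

/-!
# Project EM of helper86, job EM-MID: the functional at sets of mean one half
-/

set_option autoImplicit false

namespace Pool.Agent.Q153.EM

open MeasureTheory Set Filter Topology
open scoped ENNReal InnerProductSpace ContDiff
open Pool.Agent.H888R2.KT
open Pool.Agent.H212R2.KLS (mu Bdd)
open Pool.Agent.Q86.EM

theorem mid (h1 : S_FUB) (h2 : S_LIP) (h3 : S_GSF) : S_MID := by
  intro κ _ ρ hρ hm D h hh hD v hv hv2
  obtain ⟨hP, hF⟩ := h1 κ ρ hρ hm h hh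
  have hPm : IsProbabilityMeasure (mu ρ) := ⟨hm⟩
  obtain ⟨g1, g2, -⟩ := h3 κ h hh
  have hvb : ∀ y, |v y| ≤ 1 := fun y => abs_le.2 ⟨by linarith [hv.nn y], hv.le y⟩
  have h0b : ∀ y : Eu κ, |(0 : ℝ)| ≤ 1 := fun y => by simp
  have h1b : ∀ y : Eu κ, |(1 : ℝ)| ≤ 1 := fun y => by simp
  obtain ⟨hGc, hGb, -, -, -, -⟩ := g1 v v hv.cont hv.cont 1 hvb hvb
  have hG0 : ∀ x, 0 ≤ gs h v x := by
    intro x
    have := (g1 (fun _ => 0) v continuous_const hv.cont 1 h0b hvb).2.2.2.2.2 hv.nn x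
    rwa [g2] at this
  have hG1 : ∀ x, gs h v x ≤ 1 := fun x => (abs_le.1 (hGb x)).2
  -- the integral of `G v`
  have e1 : ∫ x, gs h v x ∂(mu ρ) = 1 / 2 := by
    have h4 := (hF (fun _ => 1) v continuous_const hv.cont 1 hvb).2
    simp only [one_mul] at h4
    rw [h4, ← hv2]
    refine integral_congr_ae (Eventually.of_forall fun y => ?_)
    show pst h ρ (fun _ => 1) y * v y = v y
    rw [N9ax.pst_one hρ h hh y, one_mul]
  -- the first term
  have e2 : 1 / 4 ≤ ∫ y, v y ^ 2 ∂(ny h ρ) := by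
    have i1 : Integrable v (ny h ρ) :=
      Integrable.of_bound hv.cont.aestronglyMeasurable 1 (Eventually.of_forall fun y => hvb y)
    have i2 : Integrable (fun y => v y ^ 2) (ny h ρ) :=
      Integrable.of_bound (by have := hv.cont; fun_prop) 1 (Eventually.of_forall fun y => by
        rw [Real.norm_eq_abs, abs_pow]
        exact pow_le_one₀ (abs_nonneg _) (hvb y))
    have h5 : ∫ y, (v y - 1 / 4) ∂(ny h ρ) ≤ ∫ y, v y ^ 2 ∂(ny h ρ) := by
      refine integral_mono (i1.sub (integrable_const _)) i2 fun y => ?_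
      show v y - 1 / 4 ≤ v y ^ 2
      nlinarith [sq_nonneg (v y - 1 / 2)]
    rw [integral_sub i1 (integrable_const _), hv2, integral_const, probReal_univ, one_smul] at h5
    linarith
  -- the second term
  have iG : Integrable (gs h v) (mu ρ) := N9ax.integrable hρ hGc
  have iG2 : Integrable (fun x => gs h v x ^ 2) (mu ρ) := N9ax.integrable hρ (by fun_prop)
  have hKc : Continuous Kp := by
    unfold Kp
    fun_prop
  have iK : Integrable (fun x => Kp (gs h v x)) (mu ρ) := N9ax.integrable hρ (hKc.comp hGc)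
  have e3 := h2 κ ρ hρ hm D h hh hD v hv
  rw [e1] at e3
  have e4 : ∫ x, Kp (gs h v x) ∂(mu ρ) ≤
      ∫ x, (2 * gs h v x ^ 2 + ((Ps (1 / 2) - 2) * gs h v x +
        (Kp (1 / 2) - Ps (1 / 2) * (1 / 2) + 1 / 2))) ∂(mu ρ) := by
    refine integral_mono iK ((iG2.const_mul 2).add ((iG.const_mul _).add (integrable_const _)))
      fun x => ?_
    show Kp (gs h v x) ≤ 2 * gs h v x ^ 2 + ((Ps (1 / 2) - 2) * gs h v x +
        (Kp (1 / 2) - Ps (1 / 2) * (1 / 2) + 1 / 2))
    have := Kp_upper (hG0 x) (hG1 x) (by norm_num : (0 : ℝ) ≤ 1 / 2) (by norm_num)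
    nlinarith [this]
  have e7 : ∫ x, (2 * gs h v x ^ 2 + ((Ps (1 / 2) - 2) * gs h v x +
        (Kp (1 / 2) - Ps (1 / 2) * (1 / 2) + 1 / 2))) ∂(mu ρ) =
      2 * ∫ x, gs h v x ^ 2 ∂(mu ρ) + ((Ps (1 / 2) - 2) * (1 / 2) +
        (Kp (1 / 2) - Ps (1 / 2) * (1 / 2) + 1 / 2)) := by
    have i1 : Integrable (fun x => 2 * gs h v x ^ 2) (mu ρ) := iG2.const_mul 2
    have i2 : Integrable (fun x => (Ps (1 / 2) - 2) * gs h v x) (mu ρ) := iG.const_mul _
    have i3 : Integrable (fun _ : Eu κ => Kp (1 / 2) - Ps (1 / 2) * (1 / 2) + 1 / 2) (mu ρ) :=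
      integrable_const _
    have j1 := integral_add i1 (i2.add i3)
    have j2 := integral_add i2 i3
    simp only [Pi.add_apply] at j1 j2
    rw [j1, j2, integral_const_mul, integral_const_mul, integral_const, probReal_univ, one_smul, e1]
  rw [e7] at e4
  have e5 := Kp_at_half
  have e6 : 2 * D / h = 2 * (D / h) := by ring
  unfold JJ
  rw [e6]
  nlinarith [e2, e3, e4, e5]

end Pool.Agent.Q153.EM
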